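import Pool.Agent.W422.PI.Stm

/-! # A unimodular member of the pencil `A + u J` (PI-EU) -/

set_option autoImplicit false

namespace Pool.Agent.W338.PI

open Matrix Pool.Agent.W422.PI

theorem J_sq (g : ℕ) (R : Type*) [CommRing R] : Jm g R * Jm g R = -1 := by
  unfold Jm
  rw [fromBlocks_multiply]
  simp only [mul_zero, mul_one, zero_add, add_zero, mul_neg]
  rw [← fromBlocks_one, fromBlocks_neg]
  simp

theorem J_det (g : ℕ) (R : Type*) [CommRing R] : IsUnit (Jm g R).det := by
  have h : Jm g R * (-Jm g R) = 1 := by rw [mul_neg, J_sq, neg_neg]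
  have h2 := congrArg Matrix.det h
  rw [det_mul, det_one] at h2
  exact IsUnit.of_mul_eq_one _ h2

theorem J_map (g : ℕ) {R S : Type*} [CommRing R] [CommRing S] (f : R →+* S) :
    (Jm g R).map f = Jm g S := by
  unfold Jm
  rw [fromBlocks_map]
  congr 1
  · ext i j; simp
  · ext i j; simp [Matrix.one_apply, apply_ite f]
  · ext i j; simp [Matrix.one_apply, apply_ite f]
  · ext i j; simp

theorem J_alt (g : ℕ) (R : Type*) [CommRing R] : Alt (Jm g R) := by
  constructor
  · unfold Jm
    rw [fromBlocks_transpose, fromBlocks_neg]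
    simp
  · rintro (i | i) <;> simp [Jm]

/-- the local statement -/
theorem loc (h : SQ) {g p : ℕ} [Fact p.Prime] (hp : g < p)
    (A : Matrix (Fin g ⊕ Fin g) (Fin g ⊕ Fin g) (ZMod p)) (hA : Alt A) :
    ∃ u : ZMod p, (u • Jm g (ZMod p) + A).det ≠ 0 := by
  classical
  obtain ⟨D, hD⟩ : ∃ D : Polynomial (ZMod p), D = det ((Polynomial.X : Polynomial (ZMod p)) •
    (Jm g (ZMod p)).map Polynomial.C + A.map Polynomial.C) := ⟨_, rfl⟩
  have hcard : Fintype.card (Fin g ⊕ Fin g) = 2 * g := by
    rw [Fintype.card_sum, Fintype.card_fin, two_mul]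
  have h1 : D.natDegree ≤ 2 * g := by
    rw [hD, ← hcard]
    exact Polynomial.natDegree_det_X_add_C_le _ _
  have h2 : D.coeff (2 * g) = (Jm g (ZMod p)).det := by
    rw [hD, ← hcard]
    exact Polynomial.coeff_det_X_add_C_card _ _
  have h3 : D.coeff (2 * g) ≠ 0 := by
    rw [h2]
    exact (J_det g (ZMod p)).ne_zero
  have hD0 : D ≠ 0 := by
    intro h
    rw [h, Polynomial.coeff_zero] at h3
    exact h3 rfl
  have hsq : IsSquare D := by
    rw [hD]
    refine h (Polynomial (ZMod p)) g _ ⟨?_, ?_⟩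
    · have e1 := (J_alt g (ZMod p)).1
      have e2 := hA.1
      rw [transpose_add, transpose_smul, ← transpose_map, ← transpose_map, e1, e2]
      ext1 i j
      simp
      ring
    · intro i
      have e1 := (J_alt g (ZMod p)).2 i
      have e2 := hA.2 i
      simp [e1, e2]
  obtain ⟨P, hP⟩ := hsq
  have hP0 : P ≠ 0 := by
    intro h
    apply hD0
    rw [hP, h, mul_zero]
  have hPd : P.natDegree ≤ g := by
    have e1 := Polynomial.natDegree_mul hP0 hP0
    rw [← hP] at e1
    omega
  have hex : ∃ u : ZMod p, P.eval u ≠ 0 := by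
    by_contra hcon
    push Not at hcon
    have e1 : (Finset.univ : Finset (ZMod p)) ⊆ P.roots.toFinset := by
      intro u _
      rw [Multiset.mem_toFinset, Polynomial.mem_roots hP0]
      exact hcon u
    have e2 := Finset.card_le_card e1
    rw [Finset.card_univ, ZMod.card] at e2
    have e3 := Multiset.toFinset_card_le P.roots
    have e4 := Polynomial.card_roots' P
    omega
  obtain ⟨u, hu⟩ := hex
  refine ⟨u, ?_⟩
  have e1 : D.eval u = (u • Jm g (ZMod p) + A).det := by
    rw [hD]
    have := RingHom.map_det (Polynomial.evalRingHom u) ((Polynomial.X : Polynomial (ZMod p)) •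
      (Jm g (ZMod p)).map Polynomial.C + A.map Polynomial.C)
    rw [Polynomial.coe_evalRingHom] at this
    rw [this]
    congr 1
    ext i j
    simp
    ring
  rw [← e1, hP, Polynomial.eval_mul]
  exact mul_ne_zero hu hu

theorem main (h : SQ) : EU := by
  intro g n hn hp A hA
  classical
  have hloc : ∀ p ∈ n.primeFactors, ∃ u : ℕ,
      (((u : ZMod p) • Jm g (ZMod p) + A.map (Int.castRingHom (ZMod p))).det) ≠ 0 := by
    intro p hpn
    have hpp := Nat.prime_of_mem_primeFactors hpn
    have : Fact p.Prime := ⟨hpp⟩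
    obtain ⟨u, hu⟩ := loc h (hp p hpp (Nat.dvd_of_mem_primeFactors hpn))
      (A.map (Int.castRingHom (ZMod p))) ⟨by
        rw [← transpose_map, hA.1]
        ext i j
        simp, fun i => by simp [hA.2 i]⟩
    refine ⟨u.val, ?_⟩
    rw [ZMod.natCast_zmod_val]
    exact hu
  choose! u hu using hloc
  obtain ⟨k, hk⟩ := Nat.chineseRemainderOfFinset u id n.primeFactors
    (fun p hp => (Nat.prime_of_mem_primeFactors hp).ne_zero) (by
      intro p hp q hq hpq
      exact (Nat.coprime_primes (Nat.prime_of_mem_primeFactors hp)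
        (Nat.prime_of_mem_primeFactors hq)).2 hpq)
  refine ⟨(k : ℤ), ?_⟩
  have hdet := RingHom.map_det (Int.castRingHom (ZMod n)) (A + (k : ℤ) • Jm g ℤ)
  rw [RingHom.mapMatrix_apply] at hdet
  rw [← hdet, eq_intCast, ZMod.coe_int_isUnit_iff_isCoprime]
  rw [Int.isCoprime_iff_gcd_eq_one]
  by_contra hcon
  obtain ⟨p, hpp, hpd⟩ := Nat.exists_prime_and_dvd hcon
  have hpn : p ∣ n := by
    have := hpd.trans (Int.gcd_dvd_natAbs_left _ _)
    simpa using this
  have hpD : (p : ℤ) ∣ (A + (k : ℤ) • Jm g ℤ).det := by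
    have := hpd.trans (Int.gcd_dvd_natAbs_right _ _)
    exact Int.natCast_dvd.2 this
  have hpm : p ∈ n.primeFactors := Nat.mem_primeFactors.2 ⟨hpp, hpn, hn.ne'⟩
  have : Fact p.Prime := ⟨hpp⟩
  apply hu p hpm
  have hkp : (u p : ZMod p) = (k : ZMod p) := by
    rw [ZMod.natCast_eq_natCast_iff]
    exact (hk p hpm).symm
  have h1 := (ZMod.intCast_zmod_eq_zero_iff_dvd _ p).2 hpD
  have h2 := RingHom.map_det (Int.castRingHom (ZMod p)) (A + (k : ℤ) • Jm g ℤ)
  rw [RingHom.mapMatrix_apply, eq_intCast, h1] at h2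
  rw [h2, hkp]
  congr 1
  rw [← J_map g (Int.castRingHom (ZMod p))]
  ext i j
  simp only [Matrix.map_apply, Matrix.add_apply, Matrix.smul_apply, smul_eq_mul, eq_intCast,
    Int.cast_add, Int.cast_mul, Int.cast_natCast]
  ring

end Pool.Agent.W338.PI
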